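import Pool.Agent.helper67.DL.SpecG

/-! # Project dl (MP_4caea3_gt), module FIN: the final comparison at `x0` -/

namespace Pool.Agent.DL

open Matrix Complex
open scoped ComplexOrder Manifold ContDiff

noncomputable section

/-- the norm of the Higgs field of the other point for a diagonal metric -/
theorem FIN_nn (k₁ k₂ c : ℝ) (q : ℂ) (h1 : 0 < k₁) (h2 : 0 < k₂) (hc : 0 < c) :
    nn (diagonal ![(k₁ : ℂ), (k₂ : ℂ), (c : ℂ)]) !![0, q, 0; 1, 0, 0; 0, 0, 0] =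
      ‖q‖ ^ 2 * (k₁ / k₂) + k₂ / k₁ := by
  have hinv : (diagonal ![(k₁ : ℂ), (k₂ : ℂ), (c : ℂ)])⁻¹ =
      diagonal ![((k₁⁻¹ : ℝ) : ℂ), ((k₂⁻¹ : ℝ) : ℂ), ((c⁻¹ : ℝ) : ℂ)] := by
    apply inv_eq_left_inv
    rw [diagonal_mul_diagonal]
    have h1' : (k₁ : ℂ) ≠ 0 := by exact_mod_cast h1.ne'
    have h2' : (k₂ : ℂ) ≠ 0 := by exact_mod_cast h2.ne'
    have h3' : (c : ℂ) ≠ 0 := by exact_mod_cast hc.ne'
    have : (fun i : Fin 3 => ![((k₁⁻¹ : ℝ) : ℂ), ((k₂⁻¹ : ℝ) : ℂ), ((c⁻¹ : ℝ) : ℂ)] i *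
        ![(k₁ : ℂ), (k₂ : ℂ), (c : ℂ)] i) = fun _ => 1 := by
      funext i
      fin_cases i
      · simp [h1']
      · simp [h2']
      · simp [h3']
    rw [this]
    exact diagonal_one
  unfold nn nn2
  rw [hinv]
  have hP : (!![0, q, 0; 1, 0, 0; 0, 0, 0] : Matrix (Fin 3) (Fin 3) ℂ)ᴴ =
      !![0, 1, 0; star q, 0, 0; 0, 0, 0] := by
    ext i j
    fin_cases i <;> fin_cases j <;> simp [conjTranspose_apply]
  rw [hP, trace_fin_three]
  simp only [Matrix.mul_apply, Fin.sum_univ_three, diagonal_apply]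
  simp
  have hq : (q.re * q.re + q.im * q.im) = ‖q‖ ^ 2 := by
    rw [← Complex.normSq_apply, Complex.normSq_eq_norm_sq]
  rw [← hq, div_eq_mul_inv, div_eq_mul_inv]
  ring

theorem FIN (hLOC : LOC_stmt) (hHT : HT_stmt) (hHD : HD_stmt) (hHS : HS_stmt) (hHU : HU_stmt)
    (hHA : HA_stmt) (hHL : HL_stmt) (hEX : EX_stmt) (hBX : BX_stmt) (hBY : BY_stmt)
    (hBZ : BZ_stmt) (hBW : BW_stmt) : FIN_stmt := by
  intro X _ _ D hX hD
  obtain ⟨R, t, hR, ht, hloc⟩ := hLOC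
  obtain ⟨a, ha⟩ : ∃ a : ℝ, a = 2 * (R + 2) := ⟨_, rfl⟩
  have ha6 : 6 ≤ a := by rw [ha]; linarith
  have ha0 : 0 < a := by linarith
  have ht0 : 0 < t := by linarith
  refine ⟨a, t, ha6, ht, ?_⟩
  intro H H' hH hH'
  obtain ⟨e1, -, -, -, -, e6, e7, -, -, e10, -, -⟩ := hEX X D hD a t ha0 ht0
  obtain ⟨g1, g2⟩ := hHT X (cov D a) (q2F D a t) (q3F D a t) e1 e6 e7 H' hH'
  set Hs : (cov D a).ι → X → Matrix (Fin 3) (Fin 3) ℂ := fun i x =>
    (uni (cov D a) (q2F D a t) (-1) i x)ᴴ * H' i x * uni (cov D a) (q2F D a t) (-1) i x with hHs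
  have d1 := hHD X (cov D a) (q2F D a t) (q3F D a t) e1 e6 e7 Hs g1
  have d2 := hHS X D hX hD a t ha0 ht0 Hs g1
  have hx0 : D.x0 ∈ (cov D a).U false := hD.x0mem
  have u1 := hHU X D hX hD a t ha0 ht0 Hs _ g1 d1 false D.x0 hx0
  have u2 := hHU X D hX hD a t ha0 ht0 Hs _ g1 d2 false D.x0 hx0
  rw [hD.x0t] at u2
  have hz0 : (0 : ℂ) ∈ D.e0.target := hD.e0t (Metric.mem_ball_self (by norm_num))
  have hz1 : (0 : ℂ) ∈ D.e0.target ∩ D.e0.symm ⁻¹' (cov D a).U false := by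
    refine ⟨hz0, ?_⟩
    rw [Set.mem_preimage, hD.e0x]
    exact hx0
  have hpos : (Hs false D.x0).PosDef := by
    have := (g1.1.loc false D.e0 hD.e0a).pos 0 hz1
    simpa only [hD.e0x] using this
  obtain ⟨h, hh, hdiag⟩ := hHA (Hs false D.x0) hpos u2 u1
  obtain ⟨w1, w2, w3⟩ := hHL X D hX hD a t R ht0 hR ha Hs g1
  -- the other point
  have b1 := hBX X D hX hD a t (by linarith) ht0 H hH
  obtain ⟨⟨c, hc, hcc⟩, b2⟩ := hBY X D hX hD a t (by linarith) ht0 H hH b1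
  have b3 := hBZ X D hX hD a t (by linarith) ht0 _ b2
  have b4 := hBW X D hX hD a t ha6 ht _ b2 b3
  have key := hloc _ _ h _ w1 w2 hh (by
    have e : (0 : ℂ) / (a : ℂ) = 0 := zero_div _
    show Hs false (D.e0.symm (0 / (a : ℂ))) = _
    rw [e, hD.e0x]
    exact hdiag) b4
  have e0 : (0 : ℂ) / (a : ℂ) = 0 := zero_div _
  simp only [e0, hD.e0x] at key
  have hposH : (H false D.x0).PosDef := by
    have := (hH.1.loc false D.e0 hD.e0a).pos 0 hz1
    simpa only [hD.e0x] using this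
  have hl : nn (H' false D.x0) ((hitchin3 (cov D a) (q2F D a t) (q3F D a t)).A false D.x0) =
      nn (Hs false D.x0) (AA t 0) := by
    rw [← g2 false D.x0 hx0, w3]
  rw [hl]
  refine key.trans_eq ?_
  obtain ⟨s1, s2⟩ := e10 D.x0 hD.x0mem
  rw [hD.x0z, mul_zero] at s1 s2
  have hss : ss t 0 = 0 := by unfold ss; simp
  have hA : (BB D a t).A false D.x0 = !![0, qq t 0, 0; 1, 0, 0; 0, 0, 0] := by
    show !![quo (sF D a t) ((cov D a).η false) 1 D.x0, quo (qF D a t) ((cov D a).η false) 2 D.x0, 0;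
      1, quo (sF D a t) ((cov D a).η false) 1 D.x0, 0;
      0, 0, -2 * quo (sF D a t) ((cov D a).η false) 1 D.x0] = _
    rw [s1, s2, hss, mul_zero]
  obtain ⟨n1, n2, n3, n4⟩ := b1 false D.x0 hx0
  obtain ⟨m1, m2⟩ := b3 false D.x0 hx0
  have m1' : H false D.x0 0 1 = 0 := m1
  have m2' : H false D.x0 1 0 = 0 := m2
  have hd : ∀ i : Fin 3, 0 < (H false D.x0 i i).re ∧ H false D.x0 i i = (((H false D.x0 i i).re : ℝ) : ℂ) := by
    intro i
    have h5 := hposH.diag_pos (i := i)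
    rw [Complex.lt_def] at h5
    refine ⟨h5.1, ?_⟩
    apply Complex.ext
    · simp
    · simp only [Complex.ofReal_im]
      exact h5.2.symm
  have hHd : H false D.x0 = diagonal ![(((H false D.x0 0 0).re : ℝ) : ℂ),
      (((H false D.x0 1 1).re : ℝ) : ℂ), (c : ℂ)] := by
    ext i j
    fin_cases i <;> fin_cases j
    · simpa using (hd 0).2
    · simpa using m1'
    · simpa using n1
    · simpa using m2'
    · simpa using (hd 1).2
    · simpa using n2
    · simpa using n3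
    · simpa using n4
    · simpa using hcc false D.x0 hx0
  rw [hA, hHd, FIN_nn _ _ _ _ (hd 0).1 (hd 1).1 hc]
  have hk : 0 < (H false D.x0 0 0).re / (H false D.x0 1 1).re := div_pos (hd 0).1 (hd 1).1
  have x1 : Real.exp (2 * (Real.log ((H false D.x0 0 0).re / (H false D.x0 1 1).re) / 2)) =
      (H false D.x0 0 0).re / (H false D.x0 1 1).re := by
    have : 2 * (Real.log ((H false D.x0 0 0).re / (H false D.x0 1 1).re) / 2) =
        Real.log ((H false D.x0 0 0).re / (H false D.x0 1 1).re) := by ring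
    rw [this, Real.exp_log hk]
  have x2 : Real.exp (-(2 * (Real.log ((H false D.x0 0 0).re / (H false D.x0 1 1).re) / 2))) =
      (H false D.x0 1 1).re / (H false D.x0 0 0).re := by
    rw [Real.exp_neg, x1, inv_div]
  show ‖qq t 0‖ ^ 2 *
      Real.exp (2 * (Real.log ((H false D.x0 0 0).re / (H false D.x0 1 1).re) / 2)) +
      Real.exp (-(2 * (Real.log ((H false D.x0 0 0).re / (H false D.x0 1 1).re) / 2))) = _
  rw [x1, x2]

end

end Pool.Agent.DL
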